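import Pool.Agent.PSS.StmtsS5

/-!
# Squad PSS, row LNS (helper46): `N_W(A)(V) = F V`
-/

open scoped BigOperators TensorProduct

noncomputable section

namespace Pool.Agent.PSS.H46

open Pool.Agent.PFC (tw IsTv)
open Pool.Agent.PFD.D2b (FrR)
open Pool.Agent.PSS.S5 (Lc LnsStmt)

section frames

variable {R H K M Ω : Type} [CommRing R] [Group H] [Group K] [AddCommGroup M] [Module R M]

/-- a frame for `H` is a frame for `K` by means of `f : K → H` -/
theorem frR_comp [Fintype Ω] [MulAction H Ω] (ρ : H →* (M →ₗ[R] M)) (f : K →* H) (b : Ω → M)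
    (c : Ω → (M →ₗ[R] R)) (h : FrR ρ b c) :
    letI : MulAction K Ω := MulAction.compHom Ω f
    FrR (ρ.comp f) b c := by
  let _ : MulAction K Ω := MulAction.compHom Ω f
  refine ⟨?_, ?_, h.2.2⟩
  · intro g t
    exact h.1 (f g) t
  · intro g t n
    exact h.2.1 (f g) t n

end frames

/-- the diagonal -/
def dia (V : Type) [CommGroup V] : V →* V × V := (MonoidHom.id V).prod (MonoidHom.id V)

theorem dia_apply {V : Type} [CommGroup V] (v : V) : dia V v = (v, v) := rfl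

theorem cw_eq (R : Type) {V A : Type} [CommRing R] [CommGroup V] [Ring A] [Algebra R A]
    (α : V →* A) : cw R α = (bw R α).comp (dia V) := by
  ext v a
  rfl

theorem lns (hN : NfrStmt) (hF : FrbStmt) : LnsStmt := by
  classical
  intro ℓ _ F V E A B _ _ _ _ _ _ _ _ _ φ α W N hp hL b hb
  obtain ⟨Ω, fΩ, aΩ, b0, c0, hfr, hst⟩ := hL.per
  have : Finite (MulAut W) := Finite.of_injective (fun f => (f : W → W)) DFunLike.coe_injective
  have : Fintype (MulAut W) := Fintype.ofFinite _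
  have hl : (ℓ : F) = 0 := CharP.cast_eq_zero F ℓ
  obtain ⟨c', h1, h2, hfr'⟩ := hN ℓ F V A B Ω α b0 c0 W N hl hp hfr
  have hT : IsPGroup ℓ (⊤ : Subgroup V) := hp.to_subgroup ⊤
  -- the frames for the diagonal
  have hA := frR_comp (bw F α) (dia V) b0 c0 hfr
  have hB := frR_comp (bw F N.nwh) (dia V) _ c' hfr'
  rw [← cw_eq] at hA hB
  have hFA := @hF ℓ _ F V A Ω _ _ _ _ _ (MulAction.compHom Ω (dia V)) (cw F α) b0 c0 ⊤ hl hT
    inferInstance hA
  have hFB := @hF ℓ _ F V B (Σ ε : MulAut W, Fp Ω (twW W ε)) _ _ _ _ _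
    (MulAction.compHom _ (dia V)) (cw F N.nwh) _ c' ⊤ hl hT inferInstance hB
  obtain ⟨hA1, -⟩ := hFA
  obtain ⟨-, hB2⟩ := hFB
  -- the fixed points
  have key : ∀ t : (Σ ε : MulAut W, Fp Ω (twW W ε)), (∀ v : V, ((v, v) : V × V) • t = t) →
      t.1 = 1 ∧ ∀ v : V, ((v, v) : V × V) • t.2.1 = t.2.1 := by
    rintro ⟨ε, ω⟩ h
    have h3 : ∀ v : V, ((v, v) : V × V) • ω.1 = ω.1 := by
      intro v
      have h4 := h v
      rw [Sigma.ext_iff] at h4
      have h5 : ((v, v) : V × V) • ω = ω := eq_of_heq h4.2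
      exact congrArg Subtype.val h5
    refine ⟨?_, h3⟩
    obtain ⟨e, S, hS⟩ := hst ω.1
    ext w
    have h4 : (((ε w : W) : V), (w : V)) ∈ MulAction.stabilizer (V × V) ω.1 := ω.2 ⟨w, rfl⟩
    have h5 : ((w : V), (w : V)) ∈ MulAction.stabilizer (V × V) ω.1 := h3 w
    have h6 := (MulAction.stabilizer (V × V) ω.1).mul_mem h4
      ((MulAction.stabilizer (V × V) ω.1).inv_mem h5)
    rw [hS] at h6
    obtain ⟨s, hs, hs'⟩ := h6
    have h7 : φ e s = ((ε w : W) : V) * (w : V)⁻¹ := congrArg Prod.fst hs'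
    have h8 : s = (w : V) * (w : V)⁻¹ := congrArg Prod.snd hs'
    rw [mul_inv_cancel] at h8
    rw [h8, map_one] at h7
    exact (mul_inv_eq_one.1 h7.symm)
  have hfix : ∀ ω : Ω, (∀ v : V, ((v, v) : V × V) • ω = ω) → b0 ω ∈ FxR (cw F α) ⊤ := by
    intro ω hω v _
    rw [cw_eq]
    change bw F α (v, v) (b0 ω) = b0 ω
    rw [← hfr.1, hω]
  have hcw : ∀ a ∈ FxR (cw F α) ⊤, a ∈ FxR (bw F α) (twW W (1 : MulAut W)) := by
    intro a ha
    rw [mem_cw] at ha
    rw [mem_tw]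
    intro w
    exact ha w (Subgroup.mem_top _)
  have hnw : ∀ a ∈ FxR (cw F α) ⊤, N.β 1 a ∈ FxR (cw F N.nwh) ⊤ := by
    intro a ha
    rw [mem_cw]
    intro v _
    have h3 := N.mul 1 1 (α v) (al_mem_tw v W) a (hcw a ha)
    have h4 := N.mul 1 1 a (hcw a ha) (α v) (al_mem_tw v W)
    rw [N.nwh_apply, ← h3, ← h4, mem_cw.1 ha v (Subgroup.mem_top _)]
  have hbk : ∀ a ∈ BKR (cw F α) ⊤, N.β 1 a ∈ BKR (cw F N.nwh) ⊤ := by
    intro a ha
    have ha' := BKR_le_FxR ha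
    have h3 := hB2 (N.β 1 a) (hnw a ha')
    rw [Finset.sum_eq_zero, sub_zero] at h3
    · exact h3
    · rintro ⟨⟨ε, ω⟩, ht⟩ _
      have h4 : ∀ v : V, ((v, v) : V × V) • (⟨ε, ω⟩ : Σ ε : MulAut W, Fp Ω (twW W ε)) =
        ⟨ε, ω⟩ := fun v => ht (Subgroup.mem_top v)
      obtain ⟨h5, h6⟩ := key _ h4
      change ε = 1 at h5
      subst h5
      have h7 : c' ⟨1, ω⟩ (N.β 1 a) = 0 := by
        have h8 := h1 ⟨1, ω⟩ a (hcw a ha')
        exact h8.trans (hA1 ω.1 (fun v _ => h6 v) a ha)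
      change c' ⟨1, ω⟩ (N.β 1 a) • _ = 0
      rw [h7, zero_smul]
  -- the elements which are combinations of the `nwh u` modulo the Brauer kernel
  let D : Submodule F B := Submodule.span F (Set.range N.nwh) ⊔ BKR (cw F N.nwh) ⊤
  have hD : b ∈ D := by
    have h3 := hB2 b hb
    have h4 : ∀ s : B, b - s ∈ BKR (cw F N.nwh) ⊤ → s ∈ D → b ∈ D := by
      intro s hs hs'
      rw [← sub_add_cancel b s]
      exact D.add_mem (Submodule.mem_sup_right hs) hs'
    refine h4 _ h3 (D.sum_mem ?_)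
    clear h4
    rintro ⟨⟨ε, ω⟩, ht⟩ _
    refine D.smul_mem _ ?_
    have h4 : ∀ v : V, ((v, v) : V × V) • (⟨ε, ω⟩ : Σ ε : MulAut W, Fp Ω (twW W ε)) =
      ⟨ε, ω⟩ := fun v => ht (Subgroup.mem_top v)
    obtain ⟨h5, h6⟩ := key _ h4
    change ε = 1 at h5
    subst h5
    change N.β 1 (b0 ω.1) ∈ D
    obtain ⟨cc, hcc⟩ := hL.spn _ (hfix ω.1 h6)
    have h7 := hbk _ hcc
    rw [map_sub, map_sum] at h7
    have h8 : N.β 1 (b0 ω.1) = (N.β 1 (b0 ω.1) - ∑ u, N.β 1 (cc u • α u)) +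
      ∑ u, N.β 1 (cc u • α u) := (sub_add_cancel _ _).symm
    rw [h8]
    refine D.add_mem (Submodule.mem_sup_right h7) (D.sum_mem ?_)
    intro u _
    rw [map_smul]
    exact D.smul_mem _ (Submodule.mem_sup_left (Submodule.subset_span ⟨u, rfl⟩))
  obtain ⟨y, hy, z, hz, rfl⟩ := Submodule.mem_sup.1 hD
  obtain ⟨cc, rfl⟩ := (Submodule.mem_span_range_iff_exists_fun F).1 hy
  refine ⟨cc, ?_⟩
  rw [add_sub_cancel_left]
  exact hz

end Pool.Agent.PSS.H46
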