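import Pool.Agent.PSS.StmtsS1a
import Pool.Agent.Helper10_PFD.Sug

/-!
# Squad PSS, row ALV (helper46): the multiplication lifts
-/

open scoped BigOperators TensorProduct

noncomputable section

namespace Pool.Agent.PSS.H46

open Pool.Agent.PFD.D2 (Cdv FibG)
open Pool.Agent.PFD.D2b (FrR)
open Finset

theorem bw1 {F V A : Type} [Field F] [CommGroup V] [Ring A] [Algebra F A] (α : V →* A) (g : V)
    (a : A) : bw F α (g, 1) a = α g * a := by
  change α g * (a * α (1 : V)⁻¹) = α g * a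
  rw [inv_one, map_one, mul_one]

theorem bw2 {F V A : Type} [Field F] [CommGroup V] [Ring A] [Algebra F A] (α : V →* A) (g : V)
    (a : A) : bw F α (1, g) a = a * α g⁻¹ := by
  change α 1 * (a * α g⁻¹) = a * α g⁻¹
  rw [map_one, one_mul]

theorem rb_mul {F V A : Type} [Field F] [CommGroup V] [Ring A] [Algebra F A] (α : V →* A) :
    RB (bw F α) (LinearMap.mul F A) := by
  refine ⟨?_, ?_, ?_⟩
  · intro g x y
    rw [bw1, bw1, LinearMap.mul_apply', LinearMap.mul_apply', mul_assoc]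
  · intro g x y
    rw [bw2, bw1, LinearMap.mul_apply', LinearMap.mul_apply', mul_assoc]
  · intro g x y
    rw [bw2, bw2, LinearMap.mul_apply', LinearMap.mul_apply', mul_assoc]

theorem sepM {R F M : Type} [CommRing R] [Field F] (c : Cdv R F) [AddCommGroup M] [Module R M]
    [Module.Free R M] (m : M) (h : ∀ n : ℕ, 1 ≤ n → ∃ w : M, m = c.π ^ n • w) : m = 0 := by
  let b := Module.Free.chooseBasis R M
  apply b.repr.injective
  rw [map_zero]
  ext k
  rw [Finsupp.zero_apply]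
  apply c.sep
  intro n
  rcases Nat.eq_zero_or_pos n with hn | hn
  · subst hn
    exact ⟨b.repr m k, by rw [pow_zero, one_mul]⟩
  · obtain ⟨w, hw⟩ := h n hn
    refine ⟨b.repr w k, ?_⟩
    rw [hw, map_smul, Finsupp.smul_apply, smul_eq_mul]

theorem alv (hS : StvStmt) : AlvStmt := by
  intro R F V A M K _ _ _ c _ _ _ _ _ _ _ _ α u v hC ρ q hq hL
  have hstv := hS R F V A M K c α u v hC ρ q hq hL
  have hκ : c.κ c.π = 0 := (c.ker c.π).mpr ⟨1, (mul_one _).symm⟩
  have hqp : ∀ (n : ℕ) (x : M), 1 ≤ n → q (c.π ^ n • x) = 0 := by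
    intro n x hn
    rw [hq.sc, map_pow, hκ, zero_pow (by omega), zero_smul]
  obtain ⟨β₁, hβ₁, hq₁⟩ := hL (LinearMap.mul F A) (rb_mul α)
  have hq₁' : ∀ x y, q (β₁ x y) = q x * q y := fun x y => by
    rw [hq₁, LinearMap.mul_apply']
  let P : ℕ → (M →ₗ[R] M →ₗ[R] M) → Prop := fun n β =>
    ∃ β' : M →ₗ[R] M →ₗ[R] M, RB ρ β' ∧ (∀ x y, q (β' x y) = q x * q y) ∧
      (∀ x y z, ∃ w, asr β' x y z = c.π ^ n • w) ∧
      ∃ γ : M →ₗ[R] M →ₗ[R] M, β = β' + c.π ^ n • γ
  have hP1 : P 1 β₁ := by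
    refine ⟨β₁, hβ₁, hq₁', ?_, 0, by rw [smul_zero, add_zero]⟩
    intro x y z
    rw [pow_one]
    apply (hq.kr _).mp
    unfold asr
    rw [map_sub, hq₁', hq₁', hq₁', hq₁', mul_assoc, sub_self]
  have hinv : ∀ n x z, P n x → P n (x + c.π ^ n • z) := by
    rintro n x z ⟨β', h1, h2, h3, γ, h4⟩
    exact ⟨β', h1, h2, h3, γ + z, by rw [h4, smul_add, add_assoc]⟩
  have hstep : ∀ n x, 1 ≤ n → P n x → ∃ z, P (n + 1) (x + c.π ^ n • z) := by
    rintro n x hn ⟨β', h1, h2, h3, γ, h4⟩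
    obtain ⟨ν, hν, hasr⟩ := hstv β' n hn h1 h2 h3
    refine ⟨ν - γ, β' + c.π ^ n • ν, ?_, ?_, hasr, 0, ?_⟩
    · obtain ⟨a1, a2, a3⟩ := h1
      obtain ⟨b1, b2, b3⟩ := hν
      refine ⟨?_, ?_, ?_⟩
      · intro g x y
        simp only [LinearMap.add_apply, LinearMap.smul_apply, a1, b1, map_add, map_smul]
      · intro g x y
        simp only [LinearMap.add_apply, LinearMap.smul_apply, a2, b2]
      · intro g x y
        simp only [LinearMap.add_apply, LinearMap.smul_apply, a3, b3, map_add, map_smul]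
    · intro x y
      rw [LinearMap.add_apply, LinearMap.add_apply, LinearMap.smul_apply, LinearMap.smul_apply,
        map_add, h2, hqp n _ hn, add_zero]
    · rw [h4, smul_zero, add_zero, smul_sub]
      abel
  obtain ⟨z, hz⟩ := Pool.Agent.PFD.D2.H10.sug R F (M →ₗ[R] M →ₗ[R] M) c P hinv hstep β₁ hP1
  set β := β₁ + c.π • z with hβdef
  have hval : ∀ (β' γ : M →ₗ[R] M →ₗ[R] M) (n : ℕ), β = β' + c.π ^ n • γ →
      ∀ x y, β x y = β' x y + c.π ^ n • γ x y := by
    intro β' γ n h x y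
    rw [h, LinearMap.add_apply, LinearMap.add_apply, LinearMap.smul_apply, LinearMap.smul_apply]
  refine ⟨β, ⟨?_, ?_, ?_⟩, ?_, ?_⟩
  · intro g x y
    rw [← sub_eq_zero]
    apply sepM c
    intro n hn
    obtain ⟨β', h1, -, -, γ, h4⟩ := hz n hn
    refine ⟨γ (ρ (g, 1) x) y - ρ (g, 1) (γ x y), ?_⟩
    rw [hval β' γ n h4, hval β' γ n h4, h1.1, map_add, map_smul, smul_sub]
    abel
  · intro g x y
    rw [← sub_eq_zero]
    apply sepM c
    intro n hn
    obtain ⟨β', h1, -, -, γ, h4⟩ := hz n hn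
    refine ⟨γ (ρ (1, g) x) y - γ x (ρ (g⁻¹, 1) y), ?_⟩
    rw [hval β' γ n h4, hval β' γ n h4, h1.2.1, smul_sub]
    abel
  · intro g x y
    rw [← sub_eq_zero]
    apply sepM c
    intro n hn
    obtain ⟨β', h1, -, -, γ, h4⟩ := hz n hn
    refine ⟨γ x (ρ (1, g) y) - ρ (1, g) (γ x y), ?_⟩
    rw [hval β' γ n h4, hval β' γ n h4, h1.2.2, map_add, map_smul, smul_sub]
    abel
  · intro x y
    obtain ⟨β', -, h2, -, γ, h4⟩ := hz 1 le_rfl
    rw [hval β' γ 1 h4, map_add, h2, hqp 1 _ le_rfl, add_zero]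
  · intro x y t
    apply sepM c
    intro n hn
    obtain ⟨β', -, -, h3, γ, h4⟩ := hz n hn
    obtain ⟨w, hw⟩ := h3 x y t
    have e := hval β' γ n h4
    refine ⟨w + (β' (γ x y) t + γ (β x y) t) - (β' x (γ y t) + γ x (β y t)), ?_⟩
    unfold asr at hw ⊢
    rw [e (β x y) t, e x y, e x (β y t), e y t]
    simp only [map_add, map_smul, LinearMap.add_apply, LinearMap.smul_apply, smul_add, smul_sub,
      ← hw]
    abel

end Pool.Agent.PSS.H46
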